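import Mathlib
import Pool.Agent.Helper2.OS.Aff

set_option autoImplicit false

namespace Pool.Agent.Results.MP_3b8c4a_al.OneSide

open Matrix Complex
open scoped ComplexConjugate

/-- Fix the normal matrix `B = U2 diag(b) U2*`, the eigenvectors `U1` of `A` and all eigenvalues
of `A` except `a i0`, and let `N` be the set of all complex numbers `t` such that the inclusion
`det(A+B) ∈ conv {z_σ}` of the determinantal conjecture fails when the eigenvalue `a i0` is
replaced by `t`.  Then `N` is connected (possibly empty), for all `n` and without any condition.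
If all the other eigenvalues `a i`, `i ≠ i0`, lie on the line or circle
`C = {z : α|z|^2 + 2 Re(conj β z) + γ = 0}`, then `N` lies strictly on one side of `C`, so the
inclusion holds for all `t` on the other closed side of `C`.  For `n ≤ 4` there always is such a
line or circle. -/
theorem result (n : Type*) [Fintype n] [DecidableEq n] (i0 : n) (a b : n → ℂ)
    (U1 U2 : unitary (Matrix n n ℂ)) (N : Set ℂ)
    (hN : N = {t : ℂ | (U1 * diagonal (Function.update a i0 t) * star U1
        + U2 * diagonal b * star U2).det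
        ∉ convexHull ℝ { ∏ i, (Function.update a i0 t i + b (σ i)) | σ : Equiv.Perm n }}) :
    IsPreconnected N ∧
    (∀ (α γ : ℝ) (β : ℂ), (α ≠ 0 ∨ β ≠ 0) →
      (∀ i, i ≠ i0 → α * normSq (a i) + 2 * (conj β * a i).re + γ = 0) →
      (∀ t ∈ N, α * normSq t + 2 * (conj β * t).re + γ < 0) ∨
      (∀ t ∈ N, 0 < α * normSq t + 2 * (conj β * t).re + γ)) ∧
    (Fintype.card n ≤ 4 → ∃ (α γ : ℝ) (β : ℂ), (α ≠ 0 ∨ β ≠ 0) ∧
      ∀ i, i ≠ i0 → α * normSq (a i) + 2 * (conj β * a i).re + γ = 0) := by
  subst hN
  exact ⟨Pool.Agent.Helper2.OS.isPreconnected_badSet i0 a b U1 U2,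
    fun α γ β hC ha => Pool.Agent.Helper2.OS.bad_oneSide i0 a b U1 U2 α γ β hC ha,
    fun hn => Pool.Agent.Helper2.OS.exists_qf i0 a hn⟩

end Pool.Agent.Results.MP_3b8c4a_al.OneSide
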